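import Pool.Agent.N876.TC.Gal

/-!
# The Tate conjecture for products of cyclic coverings of projective spaces with arbitrary varieties

Let `k` be a finitely generated field (of any characteristic), with absolute Galois group `Γ`, and let
`X_1, …, X_r` be smooth projective varieties over `k`, of any dimensions `n_i ≥ 1`, which are models of
cyclic coverings

  `w ^ N_i = ∏ l_{i,k} (x) ^ a_{i,k}`

of the projective spaces of dimension `n_i`, branched along hyperplanes `l_{i,k} = 0`, with exponents
prime to `N_i`. Let `Y` be an **arbitrary** smooth projective variety over `k`.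

Let `y` be a closed point, with residue field `κ` with `q = c ^ f` elements and geometric Frobenius `σ`, of
a model of `k` over which everything has good reduction, such that `N_i` divides `q - 1`. We assume that
the reductions at `y` of the `X_i` satisfy the following (`IsCyclicCovering`): the cohomology of `X_i` is
the sum of a space with a basis of classes of algebraic cycles defined over `k` (the invariants of the
covering group), and of a space `W_i` in degree `n_i` without invariants, and the trace formula of
Grothendieck and Lefschetz holds for the compositions of the Frobenius with the elements of the covering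
group. This is the case if the divisor `∏ l_{i,k} = 0` has normal crossings, for every equivariant
toroidal resolution of the normalisation of projective space in the function field: the covering is
totally ramified along the hyperplanes, and the sheaves of rank one on their complement which are
given by the nontrivial characters have the same cohomology with and without compact supports.

For an integer `j` let `weight X j` be the sum of the fractional parts of `j a_k / N`, replaced by its
mean over the orbit `j, c j, …, c ^ (f - 1) j`. The condition `IsSmall N` says: for every nonempty set `I`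
of indices and all `j_i` not divisible by `N_i` (`i ∈ I`) there is a `u` prime to `N` with
`∑_{i ∈ I} weight X_i (u j_i) < ∑_{i ∈ I} (n_i / 2 + 1)`. (This is the analogue of the conditions of
Shioda for Fermat varieties.) It holds for example if the `N_i` are different prime numbers, `N` is
their product, and for every `i` there is a `u` prime to `N_i` with `weight X_i u < n_i / 2 + 1`; for
instance if `c ≡ 1 mod N_i` and `∑_k a_{i,k} < N_i (n_i / 2 + 1)`.

**Theorem.** Assume `IsSmall N`, where `N` is a common multiple of the `N_i` such that the cyclotomic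
polynomial of order `N` is irreducible over the field generated by the eigenvalues of `σ` on the
cohomology of `Y` (for given `Y` this is true for all `N` prime to the discriminant of this field).
Then, for every finite extension `k'` of `k`, the Tate classes over `k'` of `X_1 × ⋯ × X_r × Y` of
codimension `w` are **exactly** the linear combinations of the products `e_1 × ⋯ × e_r × b`, where
the `e_i` are the classes of algebraic cycles on `X_i` and `b` is a Tate class over `k'` of `Y` of
codimension `w - ∑ codim e_i`. In particular **if the Tate conjecture holds for `Y` then it holds for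
`X_1 × ⋯ × X_r × Y`**, in all codimensions and over all finite extensions, and it holds for
`X_1 × ⋯ × X_r`. Moreover the same is true for the generalised eigenspaces of the powers of the
Frobenius: if `k` is finite, then the orders of the poles of the zeta functions of
`X_1 × ⋯ × X_r × Y` at all integers are the sums of those for `Y` which are given by the cycles on the `X_i`.

Nothing is assumed on `Y` besides the condition on the field of Frobenius eigenvalues at one closed
point; the theorem of Deligne on the absolute values of the eigenvalues is a hypothesis.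

The proof: let `α_i` be eigenvalues of `σ` on `W_i` (`i ∈ I`), `β` an eigenvalue on the cohomology of `Y`,
and suppose that `∏ α_i β` is a power of `q` times a root of unity. By the theorem of Stickelberger
on Gauss sums, for every embedding of the algebraic numbers into an algebraic closure of the field of
`c`-adic numbers there is another one, with the same values on the Frobenius field of `Y`, such that
the valuations of the `α_i` add up to more than `∑ n_i / 2`. So the valuation of `β` is
less than half of its weight, for every embedding, in contradiction to `β conj(β) = q ^ j`.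

helper876; built on the library of the starting files (estimates of sums over hyperplane
arrangements by Gauss sums: helper528 and helpers 800, 883, 135, 563, 271, 540, 400, 999, 782, 605, 346;
traces on eigenspaces: helper117).
-/

set_option autoImplicit false

open Finset Polynomial TensorProduct

namespace Pool.Agent.Results.MP_0fca13_ag.HyperplaneCoverings

/-- A cyclic covering `w ^ N = ∏ l_k (x) ^ a_k` of the projective space of dimension `n`, and a root of
unity `z`. -/
structure Covering (κ : Type) [Field κ] : Type where
  N : ℕ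
  n : ℕ
  s : ℕ
  l : Fin s → Fin (n + 1) → κ
  a : Fin s → ℕ
  z : κ

/-- `z` has order `N ≥ 2`, the exponents are prime to `N` and their sum is divisible by `N`. -/
structure Covering.IsAdmissible {κ : Type} [Field κ] (X : Covering κ) : Prop where
  two_le : 2 ≤ X.N
  root : IsPrimitiveRoot X.z X.N
  coprime : ∀ k, (X.a k).Coprime X.N
  dvd : X.N ∣ ∑ k, X.a k

/-- The value of the form `∏ l_k ^ a_k` at a vector with coordinates in `L`. -/
def Covering.value {κ : Type} [Field κ] (X : Covering κ) (L : Type) [Field L] [Algebra κ L]
    (x : Fin (X.n + 1) → L) : L :=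
  ∏ k, (∑ t, algebraMap κ L (X.l k t) * x t) ^ X.a k

/-- The number of vectors over `L` where the form is not zero. -/
noncomputable def Covering.openCount {κ : Type} [Field κ] (X : Covering κ) (L : Type) [Field L]
    [Algebra κ L] : ℕ :=
  Set.ncard {x : Fin (X.n + 1) → L | X.value L x ≠ 0}

/-- The number of vectors over `L` where the form is not zero and its power with the exponent
`(|L| - 1) / N` is `z ^ i`. -/
noncomputable def Covering.fixCount {κ : Type} [Field κ] (X : Covering κ) (L : Type) [Field L]
    [Fintype L] [Algebra κ L] (i : ℕ) : ℕ :=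
  Set.ncard {x : Fin (X.n + 1) → L | X.value L x ≠ 0 ∧
    (X.value L x) ^ ((Fintype.card L - 1) / X.N) = algebraMap κ L X.z ^ i}

/-- `W` is the part without invariants of the cohomology of degree `n` of a smooth projective model
of the covering, with the Frobenius `Φ` and the generator `g` of the covering group. The trace
of `Φ ^ [L : κ] g ^ i` is up to the sign the difference of the number of fixed points over the open
set `∏ l_k ≠ 0` of projective space (`N` points over each point where the form has the power residue
symbol `z ^ i`) and of the number of the points of this open set. -/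
structure IsCyclicCovering {κ : Type} [Field κ] (X : Covering κ) {W : Type} [AddCommGroup W]
    [Module ℂ W] (Φ g : Module.End ℂ W) : Prop where
  commute : Commute Φ g
  order : g ^ X.N = 1
  invariants : ∀ w, g w = w → w = 0
  lefschetz : ∀ (L : Type) [Field L] [Fintype L] [Algebra κ L] (i : ℕ),
    ((Fintype.card L : ℂ) - 1) *
        ((-1) ^ X.n * LinearMap.trace ℂ W (Φ ^ Module.finrank κ L * g ^ i)) =
      (X.N : ℂ) * (X.fixCount L i : ℂ) - (X.openCount L : ℂ)

/-- The mean over `j, c j, …, c ^ (f - 1) j` of the sum of the fractional parts of `j a_k / N`. -/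
def Covering.weight {κ : Type} [Field κ] (X : Covering κ) (c f j : ℕ) : ℚ :=
  (∑ k, ∑ t ∈ range f, (((j * X.a k * c ^ t) % X.N : ℕ) : ℚ)) / (f * X.N)

/-- The condition on the exponents. -/
def IsSmall {κ : Type} [Field κ] {ι : Type} (X : ι → Covering κ) (c f N : ℕ) : Prop :=
  ∀ I : Finset ι, I.Nonempty → ∀ j : ι → ℕ, (∀ i ∈ I, ¬ (X i).N ∣ j i) →
    ∃ u : ℕ, u.Coprime N ∧
      ∑ i ∈ I, (X i).weight c f (u * j i) < ∑ i ∈ I, (((X i).n : ℚ) / 2 + 1)

section galois

variable {Γ : Type} [Group Γ] {K W : Type} [AddCommGroup W] [Module ℂ W]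

/-- The action of `γ` on the cohomology of `X`: on the classes of algebraic cycles of codimension
`codim k` by the power of `χ` with this exponent, and on `W` by `ρ`. -/
noncomputable def cohomologyAction (χ : Γ →* ℂˣ) (codim : K → ℕ) (ρ : Γ →* Module.End ℂ W) (γ : Γ) :
    Module.End ℂ ((K → ℂ) × W) :=
  LinearMap.prodMap (LinearMap.pi fun k => (((χ γ : ℂˣ) : ℂ) ^ codim k) • LinearMap.proj k) (ρ γ)

end galois

section product

variable {Γ : Type} [Group Γ] {ι : Type} {K W : ι → Type}
  [∀ i, AddCommGroup (W i)] [∀ i, Module ℂ (W i)] {B : Type} [AddCommGroup B] [Module ℂ B]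

/-- The cohomology of the product of the `X_i` and of `Y` (Künneth formula), with complex
coefficients. -/
abbrev ProductCohomology {ι : Type} (K W : ι → Type) [∀ i, AddCommGroup (W i)]
    [∀ i, Module ℂ (W i)] (B : Type) [AddCommGroup B] [Module ℂ B] : Type :=
  (⨂[ℂ] i, ((K i → ℂ) × W i)) ⊗[ℂ] B

/-- The action of `γ` on the cohomology of the product. -/
noncomputable def productAction (χ : Γ →* ℂˣ) (codim : ∀ i, K i → ℕ)
    (ρ : ∀ i, Γ →* Module.End ℂ (W i)) (ρY : Γ →* Module.End ℂ B) (γ : Γ) :
    Module.End ℂ (ProductCohomology K W B) :=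
  TensorProduct.map
    (PiTensorProduct.map fun i => cohomologyAction χ (codim i) (ρ i) γ) (ρY γ)

/-- The product of the classes of the cycles with the indices `k i` and of the class `b` on `Y`. -/
noncomputable def product [∀ i, DecidableEq (K i)] (k : ∀ i, K i) (b : B) :
    ProductCohomology K W B :=
  (⨂ₜ[ℂ] i, ((Pi.single (k i) 1, 0) : (K i → ℂ) × W i)) ⊗ₜ[ℂ] b

/-- `v` is a linear combination of products `e_1 × ⋯ × e_r × b` of the classes of cycles on the
`X_i` and of a class `b` on `Y` such that `P (w - codim) b` holds. -/
def IsCombination [∀ i, DecidableEq (K i)] [Fintype ι] (codim : ∀ i, K i → ℕ) (P : ℕ → B → Prop)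
    (w : ℕ) (v : ProductCohomology K W B) : Prop :=
  v ∈ Submodule.span ℂ {t | ∃ (k : ∀ i, K i) (b : B), ∑ i, codim i (k i) ≤ w ∧
    P (w - ∑ i, codim i (k i)) b ∧ product k b = t}

end product

/-- The elements of `Γ'` act on `v` by the power `w` of `χ`: `v` is a Tate class of codimension `w` over
the extension with the group `Γ'`. -/
def IsTateClass {Γ : Type} [Group Γ] (χ : Γ →* ℂˣ) (Γ' : Subgroup Γ) {V : Type} [AddCommGroup V]
    [Module ℂ V] (action : Γ → Module.End ℂ V) (w : ℕ) (v : V) : Prop :=
  ∀ γ ∈ Γ', action γ v = ((χ γ : ℂˣ) : ℂ) ^ w • v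

/-- `v` is in the generalised eigenspace of `Φ ^ m` with the eigenvalue `q ^ (m w)`. -/
def IsGeneralTateClass (q m : ℕ) {V : Type} [AddCommGroup V] [Module ℂ V] (Φ : Module.End ℂ V)
    (w : ℕ) (v : V) : Prop :=
  v ∈ Module.End.maxGenEigenspace (Φ ^ m) ((q : ℂ) ^ (m * w))

/-- The theorem of Deligne for the cohomology `B` of `Y`. -/
def IsPure (q : ℕ) {B : Type} [AddCommGroup B] [Module ℂ B] (Φ : Module.End ℂ B) : Prop :=
  ∀ β, Φ.HasEigenvalue β → IsAlgebraic ℚ β ∧ ∃ j : ℕ, ‖β‖ ^ 2 = (q : ℝ) ^ j

/-- The cyclotomic polynomial of order `N` is irreducible over the field which is generated by the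
eigenvalues of `Φ`. -/
def IsDisjoint (N : ℕ) {B : Type} [AddCommGroup B] [Module ℂ B] (Φ : Module.End ℂ B) : Prop :=
  Irreducible (cyclotomic N (IntermediateField.adjoin ℚ {β | Φ.HasEigenvalue β}))

/-- The theorem on Tate classes, for all data over `κ`. -/
def TateTheorem {κ : Type} [Field κ] [Fintype κ] {ι : Type} [Fintype ι] [DecidableEq ι]
    (X : ι → Covering κ) (N : ℕ) : Prop :=
  ∀ {Γ : Type} [Group Γ] (χ : Γ →* ℂˣ) (σ : Γ), ((χ σ : ℂˣ) : ℂ) = (Fintype.card κ : ℂ) →
  ∀ {K W : ι → Type} [∀ i, Fintype (K i)] [∀ i, DecidableEq (K i)] [∀ i, AddCommGroup (W i)]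
    [∀ i, Module ℂ (W i)] [∀ i, FiniteDimensional ℂ (W i)] (codim : ∀ i, K i → ℕ)
    (ρ : ∀ i, Γ →* Module.End ℂ (W i)) (g : ∀ i, Module.End ℂ (W i)),
    (∀ i, IsCyclicCovering (X i) (ρ i σ) (g i)) →
    (∀ i (α : ℂ), (ρ i σ).HasEigenvalue α → ‖α‖ ^ 2 = (Fintype.card κ : ℝ) ^ (X i).n) →
  ∀ {B : Type} [AddCommGroup B] [Module ℂ B] [FiniteDimensional ℂ B]
    (ρY : Γ →* Module.End ℂ B), IsPure (Fintype.card κ) (ρY σ) → IsDisjoint N (ρY σ) →
    -- Tate classes over finite extensions
    (∀ (Γ' : Subgroup Γ) [Γ'.FiniteIndex] (w : ℕ) (v : ProductCohomology K W B),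
      IsTateClass χ Γ' (productAction χ codim ρ ρY) w v ↔
        IsCombination codim (IsTateClass χ Γ' ρY) w v) ∧
    -- generalised eigenspaces of the powers of the Frobenius
    (∀ (m w : ℕ), 0 < m → ∀ v : ProductCohomology K W B,
      IsGeneralTateClass (Fintype.card κ) m (productAction χ codim ρ ρY σ) w v ↔
        IsCombination codim (IsGeneralTateClass (Fintype.card κ) m (ρY σ)) w v)

/-- **The Tate conjecture for products of cyclic coverings branched along hyperplanes with arbitrary
varieties.** -/
theorem result (c : ℕ) [Fact c.Prime] (κ : Type) [Field κ] [Fintype κ] [CharP κ c] (f : ℕ)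
    (hf : Fintype.card κ = c ^ f) {ι : Type} [Fintype ι] [DecidableEq ι] (X : ι → Covering κ)
    (hX : ∀ i, (X i).IsAdmissible) :
    -- the theorem on Tate classes and on generalised Tate classes
    (∀ (N : ℕ), 0 < N → (∀ i, (X i).N ∣ N) → IsSmall X c f N → TateTheorem X N) ∧
    -- pairwise coprime degrees
    ((∀ i i', i ≠ i' → ((X i).N).Coprime (X i').N) →
      (∀ i j, ¬ (X i).N ∣ j → ∃ u : ℕ, u.Coprime (X i).N ∧
        (X i).weight c f (u * j) < ((X i).n : ℚ) / 2 + 1) →
      IsSmall X c f (∏ i, (X i).N)) ∧
    -- prime degrees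
    (∀ i, ((X i).N).Prime → (∃ u, ¬ (X i).N ∣ u ∧ (X i).weight c f u < ((X i).n : ℚ) / 2 + 1) →
      ∀ j, ¬ (X i).N ∣ j → ∃ u : ℕ, u.Coprime (X i).N ∧
        (X i).weight c f (u * j) < ((X i).n : ℚ) / 2 + 1) ∧
    -- `c ≡ 1`
    (∀ i, c % (X i).N = 1 → 2 * ∑ k, (X i).a k < (X i).N * ((X i).n + 2) →
      (X i).weight c f 1 < ((X i).n : ℚ) / 2 + 1) := by
  have hf0 : 0 < f := by
    rcases Nat.eq_zero_or_pos f with h | h
    · rw [h, pow_zero] at hf
      have := Fintype.one_lt_card (α := κ)
      omega
    · exact h
  refine ⟨?_, ?_, ?_, ?_⟩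
  · intro N hN hdN hsmall Γ _ χ σ hσ K W _ _ _ _ _ codim ρ g hcov hpure B _ _ _ ρY hY hirr
    have hsmall' : Pool.Agent.N876.TC.Small c f N (fun i => (X i).N) (fun i => (X i).n)
        (fun i => (X i).s) (fun i => (X i).a) := by
      intro I hI j hj
      obtain ⟨u, hu, hlt⟩ := hsmall I hI j hj
      refine ⟨u, hu, Pool.Agent.N876.TC.weight_conv hf0 hN hdN I
        (fun i => ∑ k, ∑ t ∈ range f, (u * j i * (X i).a k * c ^ t) % (X i).N) ?_⟩
      refine lt_of_le_of_lt (le_of_eq ?_) hlt
      refine sum_congr rfl fun i _ => ?_
      unfold Covering.weight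
      push_cast
      rfl
    have hcov' : ∀ i, Pool.Agent.N876.TC.IsCov (X i).N (X i).l (X i).a (X i).z (ρ i σ) (g i) :=
      fun i => ⟨(hcov i).commute, (hcov i).order, (hcov i).invariants,
        fun L _ _ _ t => (hcov i).lefschetz L t⟩
    have hq0 : (Fintype.card κ : ℂ) ≠ 0 := by exact_mod_cast Fintype.card_ne_zero
    refine ⟨?_, ?_⟩
    · intro Γ' _ w v
      constructor
      · intro hv
        obtain ⟨h1, h2⟩ := Pool.Agent.N876.TC.gal_tate hN (fun i => (hX i).two_le) hdN κ hf
          (fun i => (hX i).root) (fun i => (X i).l) (fun i => (X i).a)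
          (fun i => (hX i).coprime) hsmall' χ σ hσ ρ ρY hcov' hpure hY hirr codim Γ' w (v := v) hv
        rw [h1]
        refine Submodule.sum_mem _ fun k _ => ?_
        rcases h2 k with ⟨h3, h4⟩ | h3
        · exact Submodule.subset_span ⟨k, _, h3, h4, rfl⟩
        · rw [h3, TensorProduct.tmul_zero]
          exact Submodule.zero_mem _
      · intro hv γ hγ
        induction hv using Submodule.span_induction with
        | mem t ht =>
          obtain ⟨k, b, h1, h2, rfl⟩ := ht
          refine (Pool.Agent.N876.TC.MM_ev ((χ γ : ℂˣ) : ℂ) codim (fun i => ρ i γ) (ρY γ) k b).trans ?_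
          rw [h2 γ hγ, TensorProduct.tmul_smul, smul_smul, ← pow_add, Nat.add_sub_cancel' h1]
          rfl
        | zero => rw [map_zero, smul_zero]
        | add x y _ _ hx hy => rw [map_add, hx, hy, smul_add]
        | smul r x _ hx => rw [map_smul, hx, smul_comm]
    · intro m w hm v
      have hact : productAction χ codim ρ ρY σ = Pool.Agent.N876.TC.MM
          (fun i => Pool.Agent.N876.TC.tot (Fintype.card κ : ℂ) (codim i) (ρ i σ)) (ρY σ) := by
        rw [← hσ]
        rfl
      rw [hact]
      constructor
      · intro hv
        obtain ⟨h1, h2⟩ := Pool.Agent.N876.TC.gen_tate hN (fun i => (hX i).two_le) hdN κ hf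
          (fun i => (hX i).root) (fun i => (X i).l) (fun i => (X i).a)
          (fun i => (hX i).coprime) hsmall' hcov' hpure hY hirr codim hm w (v := v) hv
        rw [h1]
        refine Submodule.sum_mem _ fun k _ => ?_
        rcases h2 k with ⟨h3, h4⟩ | h3
        · exact Submodule.subset_span ⟨k, _, h3, h4, rfl⟩
        · rw [h3, TensorProduct.tmul_zero]
          exact Submodule.zero_mem _
      · refine fun hv => (Submodule.span_le.2 ?_) hv
        rintro t ⟨k, b, h1, h2, rfl⟩
        have h3 := Pool.Agent.N876.TC.ev_gen (Fintype.card κ : ℂ) codim (fun i => ρ i σ) (ρY σ) k m h2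
        have h4 : ((Fintype.card κ : ℂ) ^ (∑ i, codim i (k i))) ^ m *
            (Fintype.card κ : ℂ) ^ (m * (w - ∑ i, codim i (k i))) =
            (Fintype.card κ : ℂ) ^ (m * w) := by
          rw [← pow_mul, ← pow_add, mul_comm _ m, ← mul_add, Nat.add_sub_cancel' h1]
        rw [h4] at h3
        exact h3
  · intro hco hsm I hI j hj
    have h1 : ∀ i, ∃ u : ℕ, u.Coprime (X i).N ∧ (i ∈ I →
        (X i).weight c f (u * j i) < ((X i).n : ℚ) / 2 + 1) := by
      intro i
      by_cases hi : i ∈ I
      · obtain ⟨u, hu, hlt⟩ := hsm i (j i) (hj i hi)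
        exact ⟨u, hu, fun _ => hlt⟩
      · exact ⟨1, Nat.coprime_one_left _, fun h => absurd h hi⟩
    choose u hu hlt using h1
    obtain ⟨v, hv1, hv2⟩ := Pool.Agent.N876.TC.exists_crt (d := fun i => (X i).N)
      (fun i => by have := (hX i).two_le; omega) hco u hu
    refine ⟨v, hv1, ?_⟩
    refine Finset.sum_lt_sum_of_nonempty hI fun i hi => ?_
    refine lt_of_le_of_lt (le_of_eq ?_) (hlt i hi)
    unfold Covering.weight
    congr 1
    refine sum_congr rfl fun k _ => sum_congr rfl fun t _ => ?_
    have h2 : v * j i * (X i).a k * c ^ t ≡ u i * j i * (X i).a k * c ^ t [MOD (X i).N] :=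
      (((hv2 i).mul_right _).mul_right _).mul_right _
    rw [h2]
  · rintro i hp ⟨u, hu, hlt⟩ j hj
    have hjc : j.Coprime (X i).N := ((Nat.Prime.coprime_iff_not_dvd hp).2 hj).symm
    obtain ⟨j', -, hj'⟩ := Nat.exists_mul_mod_eq_one_of_coprime hjc hp.one_lt
    have hj1 : j * j' ≡ 1 [MOD (X i).N] := by
      show j * j' % (X i).N = 1 % (X i).N
      rw [hj', Nat.mod_eq_of_lt hp.one_lt]
    refine ⟨u * j', ?_, ?_⟩
    · refine ((Nat.Prime.coprime_iff_not_dvd hp).2 ?_).symm
      intro h0
      rcases (Nat.Prime.dvd_mul hp).1 h0 with h1 | h1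
      · exact hu h1
      · have h2 : j * j' ≡ 0 [MOD (X i).N] := (Nat.modEq_zero_iff_dvd).2 (h1.mul_left j)
        have h3 := hj1.symm.trans h2
        have h4 : (X i).N ∣ 1 := (Nat.modEq_zero_iff_dvd).1 h3
        exact hp.one_lt.ne' (Nat.dvd_one.1 h4)
    · refine lt_of_le_of_lt (le_of_eq ?_) hlt
      unfold Covering.weight
      congr 1
      refine sum_congr rfl fun k _ => sum_congr rfl fun t _ => ?_
      have h2 : u * j' * j * (X i).a k * c ^ t ≡ u * (X i).a k * c ^ t [MOD (X i).N] := by
        have h3 : u * j' * j ≡ u [MOD (X i).N] := by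
          have h4 := hj1.mul_left u
          rw [mul_one] at h4
          rw [mul_assoc, mul_comm j' j]
          exact h4
        exact (h3.mul_right _).mul_right _
      rw [h2]
  · intro i hc hsum
    have hN := (hX i).two_le
    have hN' : (0 : ℚ) < (X i).N := by exact_mod_cast (by omega : 0 < (X i).N)
    have hf' : (0 : ℚ) < f := by exact_mod_cast hf0
    unfold Covering.weight
    rw [div_lt_iff₀ (by positivity)]
    have h1 : ∑ k, ∑ t ∈ range f, (((1 * (X i).a k * c ^ t) % (X i).N : ℕ) : ℚ) ≤
        f * ∑ k, ((X i).a k : ℚ) := by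
      rw [mul_sum]
      refine sum_le_sum fun k _ => ?_
      have h2 : ∀ t ∈ range f, (((1 * (X i).a k * c ^ t) % (X i).N : ℕ) : ℚ) ≤ (X i).a k := by
        intro t _
        have h3 : c ^ t ≡ 1 [MOD (X i).N] := by
          have h4 : c ≡ 1 [MOD (X i).N] := by
            show c % (X i).N = 1 % (X i).N
            rw [hc, Nat.mod_eq_of_lt (by omega)]
          simpa using h4.pow t
        have h5 : 1 * (X i).a k * c ^ t ≡ (X i).a k [MOD (X i).N] := by
          have h6 := h3.mul_left ((X i).a k)
          rw [one_mul]
          rwa [mul_one] at h6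
        rw [h5]
        exact_mod_cast Nat.mod_le _ _
      refine (sum_le_sum h2).trans (le_of_eq ?_)
      rw [sum_const, card_range, nsmul_eq_mul]
    have h2 : (2 : ℚ) * ∑ k, ((X i).a k : ℚ) < (X i).N * ((X i).n + 2) := by exact_mod_cast hsum
    refine lt_of_le_of_lt h1 ?_
    nlinarith

end Pool.Agent.Results.MP_0fca13_ag.HyperplaneCoverings
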