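import Pool.Agent.N876.FL.NR

/-!
# Homological and numerical equivalence for products with cyclic coverings branched along hyperplanes

Let `W` be a Weil cohomology theory (with an algebraically closed coefficient field, embedded in the
complex numbers) on a class of smooth proper varieties over a field `k`, and let `G` be a class of
varieties, closed under products, with an action of a group `Γ` on the cohomology with the formal
properties of a Galois action (starting files). Let `σ` be an element of `Γ`: the geometric Frobenius
of a finite field `κ` with `q = c ^ f` elements (if `k` is an algebraic closure of `κ`; if `k` is the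
algebraic closure of a field `F`, for instance of a number field, for a place of `F` with residue
field `κ` at which everything has good reduction).

Let `X_i` be varieties in `G`, of any dimensions `n_i`, which are models of cyclic coverings

  `w ^ N_i = ∏ l_{i,k} (x) ^ a_{i,k}`

of the projective spaces of dimension `n_i`, branched along hyperplanes `l_{i,k} = 0`, with exponents
prime to `N_i`, where `N_i` divides `q - 1` (`IsModel`, see the definitions: the cohomology is generated by
classes of algebraic cycles and a part `T`, pure of weight `n_i`, without invariants under the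
covering group, for which the trace formula holds). Let `N` be a common multiple of the `N_i`, and `λ`
an integer such that `IsSmall N λ` holds: for every nonempty finite set `I` of indices and all `j_i`
not divisible by `N_i` (`i ∈ I`) there is a `u` prime to `N` with
`∑_{i ∈ I} weight X_i (u j_i) + λ / 2 < ∑_{i ∈ I} (n_i / 2 + 1)`; here `weight X j` is the mean over the
orbit `j, c j, …, c ^ (f - 1) j` of the sum of the fractional parts of `j a_k / N_i`.

Let `Z` be **any** variety in `G` such that the eigenvalues of the Frobenius on the cohomology of `Z` are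
algebraic numbers which satisfy the Riemann hypothesis, and such that
* either `λ = 0` and the cyclotomic polynomial of order `N` is irreducible over the field generated by
  these eigenvalues (for given `Z` this is true for all `N` prime to the discriminant of this field),
* or `Z` is of level `≤ λ`: the numbers `q ^ λ b / b̄` are algebraic integers for all these eigenvalues
  `b`. This is true if `dim Z ≤ λ`.

**Theorem.** Let `V` be the product of `Z` and of finitely many of the `X_i` (pairwise different). Then
* (D) **homological and numerical equivalence coincide on `V`, in all codimensions, if and only if they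
  coincide on `Z`**. In particular they coincide on all products of the `X_i`, and on all
  `X_1 × ⋯ × X_r × Z`, where `Z` is a variety for which they are known to coincide (for example a
  surface, or an abelian variety in characteristic zero).
* (splitting) if `V = X_i × V'` then all algebraic cycles on `V` are homologically equivalent to sums of
  products of algebraic cycles on `X_i` and on `V'`.
* (Hodge type) if the `D_i` and `E` are divisors on the `X_i` and on `Z` which satisfy the hard Lefschetz
  theorem, and the standard conjecture of Hodge type holds for the `X_i` and the `D_i` (for example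
  surfaces), then it holds for `V` and the sum of the pull-backs of the divisors if and only if it
  holds for `Z` and `E`.

Nothing else is assumed on `Z`. It is not known in general that the conjecture D, or the conjecture of
Hodge type, for two varieties imply the same for their product.

The proof: by the theorem of Stickelberger on Gauss sums and the product formula no product of
eigenvalues of the Frobenius on the parts `T` of several `X_i` and on the cohomology of `Z` is a
power of `q` times a root of unity. So, by induction, all the algebraic classes of the product of `X_i`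
with the product of the other factors are combinations of products of algebraic classes of `X_i` with
arbitrary classes of the other factor, and the conjecture D holds for `X_i`. Therefore the algebraic
cycles on the product split into products of cycles; then the theorems of the starting files on
varieties with split cycles apply.

Purity, the trace formula and the decomposition of the cohomology of the `X_i` are hypotheses
(Deligne, Grothendieck). The result `MP_0273e8_ag.HyperplaneCoverings` is about the conjecture A in the
same situation.

helper876; built on the library of the starting files (estimates of sums over hyperplane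
arrangements by Gauss sums: helper528 and helpers 800, 883, 135, 563, 271, 540, 400, 999, 782, 605,
346; traces on eigenspaces: helper117; split cycles: TH132.A, TH125.Gal).
-/

set_option autoImplicit false

open Finset Polynomial CategoryTheory AlgebraicGeometry

universe u

namespace Pool.Agent.Results.MP_0c8446_ag.HyperplaneCoverings

open Pool.Agent.H914 Pool.Agent.H914.VarClass Pool.Agent.H914.VarClass.Obj
  Pool.Agent.H281R3.HT Pool.Agent.TH125.Gal

/-- A cyclic covering `w ^ N = ∏ l_k (x) ^ a_k` of the projective space of dimension `n`, and a root of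
unity `z`. -/
structure Covering (κ : Type) [Field κ] : Type where
  N : ℕ
  n : ℕ
  s : ℕ
  l : Fin s → Fin (n + 1) → κ
  a : Fin s → ℕ
  z : κ

/-- `z` has order `N ≥ 2`, the exponents are prime to `N` and their sum is divisible by `N`. -/
structure Covering.IsAdmissible {κ : Type} [Field κ] (X : Covering κ) : Prop where
  two_le : 2 ≤ X.N
  root : IsPrimitiveRoot X.z X.N
  coprime : ∀ k, (X.a k).Coprime X.N
  dvd : X.N ∣ ∑ k, X.a k

/-- The value of the form `∏ l_k ^ a_k` at a vector with coordinates in `L`. -/
def Covering.value {κ : Type} [Field κ] (X : Covering κ) (L : Type) [Field L] [Algebra κ L]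
    (x : Fin (X.n + 1) → L) : L :=
  ∏ k, (∑ t, algebraMap κ L (X.l k t) * x t) ^ X.a k

/-- The number of vectors over `L` where the form is not zero. -/
noncomputable def Covering.openCount {κ : Type} [Field κ] (X : Covering κ) (L : Type) [Field L]
    [Algebra κ L] : ℕ :=
  Set.ncard {x : Fin (X.n + 1) → L | X.value L x ≠ 0}

/-- The number of vectors over `L` where the form is not zero and its power with the exponent
`(|L| - 1) / N` is `z ^ i`. -/
noncomputable def Covering.fixCount {κ : Type} [Field κ] (X : Covering κ) (L : Type) [Field L]
    [Fintype L] [Algebra κ L] (i : ℕ) : ℕ :=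
  Set.ncard {x : Fin (X.n + 1) → L | X.value L x ≠ 0 ∧
    (X.value L x) ^ ((Fintype.card L - 1) / X.N) = algebraMap κ L X.z ^ i}

/-- `T` is the part without invariants of the cohomology of degree `n` of a smooth projective model
of the covering, with the Frobenius `Φ` and the generator `g` of the covering group. The trace
of `Φ ^ [L : κ] g ^ i` is up to the sign the difference of the number of fixed points over the open
set `∏ l_k ≠ 0` of projective space (`N` points over each point where the form has the power residue
symbol `z ^ i`) and of the number of the points of this open set. -/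
structure IsCyclicCovering {κ : Type} [Field κ] (X : Covering κ) {K T : Type} [Field K]
    [AddCommGroup T] [Module K T] (Φ g : Module.End K T) : Prop where
  commute : Commute Φ g
  order : g ^ X.N = 1
  invariants : ∀ t, g t = t → t = 0
  lefschetz : ∀ (L : Type) [Field L] [Fintype L] [Algebra κ L] (i : ℕ),
    ((Fintype.card L : K) - 1) *
        ((-1) ^ X.n * LinearMap.trace K T (Φ ^ Module.finrank κ L * g ^ i)) =
      (X.N : K) * (X.fixCount L i : K) - (X.openCount L : K)

/-- The mean over `j, c j, …, c ^ (f - 1) j` of the sum of the fractional parts of `j a_k / N`. -/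
def Covering.weight {κ : Type} [Field κ] (X : Covering κ) (c f j : ℕ) : ℚ :=
  (∑ k, ∑ t ∈ range f, (((j * X.a k * c ^ t) % X.N : ℕ) : ℚ)) / (f * X.N)

/-- The condition on the exponents. -/
def IsSmall {κ : Type} [Field κ] {ι : Type} (X : ι → Covering κ) (c f N lam : ℕ) : Prop :=
  ∀ I : Finset ι, I.Nonempty → ∀ j : ι → ℕ, (∀ i ∈ I, ¬ (X i).N ∣ j i) →
    ∃ u : ℕ, u.Coprime N ∧
      ∑ i ∈ I, (X i).weight c f (u * j i) + (lam : ℚ) / 2 < ∑ i ∈ I, (((X i).n : ℚ) / 2 + 1)

/-- The space `H` is generated by the subspace `P` (the classes of algebraic cycles) and a subspace `T`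
which is stable under `Φ` (the Frobenius) and `g` (a generator of the covering group), `T` is the part
without invariants (`IsCyclicCovering`), and pure of weight `n`. The complex numbers enter by an
embedding `τ` of the coefficient field. -/
def IsCoveringCohomology {κ : Type} [Field κ] [Fintype κ] (C : Covering κ) {K H : Type} [Field K]
    [AddCommGroup H] [Module K H] (P : Submodule K H) (Φ g : Module.End K H) (τ : K →+* ℂ) : Prop :=
  ∃ (T : Submodule K H) (hΦ : ∀ t ∈ T, Φ t ∈ T) (hg : ∀ t ∈ T, g t ∈ T), P ⊔ T = ⊤ ∧
    IsCyclicCovering C (Φ.restrict hΦ) (g.restrict hg) ∧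
    ∀ α, Module.End.HasEigenvalue (Φ.restrict hΦ) α → ‖τ α‖ ^ 2 = (Fintype.card κ : ℝ) ^ C.n

/-- The images of the eigenvalues of `Φ` under the embedding `τ` of the coefficient field. -/
def eigenvalues {K H : Type} [Field K] [AddCommGroup H] [Module K H] (Φ : Module.End K H)
    (τ : K →+* ℂ) : Set ℂ :=
  {b | ∃ β : K, Φ.HasEigenvalue β ∧ τ β = b}

/-- The conditions on the set `B` of the eigenvalues of the Frobenius on the cohomology of `Z`: the
Riemann hypothesis, and either `lam = 0` and the cyclotomic polynomial of order `N` is irreducible
over the field generated by `B`, or `Z` is of level at most `lam`. -/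
def IsGoodBase (q N lam : ℕ) (B : Set ℂ) : Prop :=
  (∀ b ∈ B, IsAlgebraic ℚ b ∧ ∃ j : ℕ, ‖b‖ ^ 2 = (q : ℝ) ^ j) ∧
    ((lam = 0 ∧ Irreducible (cyclotomic N (IntermediateField.adjoin ℚ B))) ∨
      ∀ b ∈ B, IsIntegral ℤ ((q : ℂ) ^ lam * b / starRingEnd ℂ b))

/-- The operator of the element `σ` of the group on the algebra `H`. -/
def operator {K H Γ : Type} [Field K] [Ring H] [Algebra K H] [Group Γ] (ρ : Γ →* (H ≃ₐ[K] H))
    (σ : Γ) : Module.End K H :=
  (ρ σ).toLinearMap

/-- An endomorphism of an algebra as a linear map. -/
def ofHom {K H : Type} [Field K] [Ring H] [Algebra K H] (g : H →ₐ[K] H) : Module.End K H :=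
  g.toLinearMap

/-- The unit `u` of the field `K` is the natural number `q`. -/
def IsNumber {K : Type} [Field K] (u : Kˣ) (q : ℕ) : Prop := (u : K) = (q : K)

/-- `IsCoveringCohomology` for the action of a group and an endomorphism of an algebra. -/
def IsCoveringAlgebra {κ : Type} [Field κ] [Fintype κ] (C : Covering κ) {K H Γ : Type} [Field K]
    [Ring H] [Algebra K H] [Group Γ] (P : Submodule K H) (ρ : Γ →* (H ≃ₐ[K] H)) (σ : Γ)
    (g : H →ₐ[K] H) (τ : K →+* ℂ) : Prop :=
  IsCoveringCohomology C P (operator ρ σ) (ofHom g) τ

/-- The images of the eigenvalues of an element of the group. -/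
def eigenvaluesOf {K H Γ : Type} [Field K] [Ring H] [Algebra K H] [Group Γ]
    (ρ : Γ →* (H ≃ₐ[K] H)) (σ : Γ) (τ : K →+* ℂ) : Set ℂ :=
  eigenvalues (operator ρ σ) τ

section geometry

variable {k : Type u} [Field k] {𝒱 : VarClass k} {ops : CycleOps 𝒱}
  {W : WeilCohomology.{u, 0} ops} {Γ : Type} [Group Γ]

/-- `A` is a model of the covering `C`, with the Frobenius `σ` and a generator `g` of the covering
group. -/
def IsModel {κ : Type} [Field κ] [Fintype κ] (C : Covering κ) (A : GVar W Γ) (σ : Γ)
    (τ : W.K →+* ℂ) : Prop :=
  ∃ g : A.X ⟶ A.X, IsCoveringAlgebra C (algSpan W A.X) A.act σ (W.map g) τ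

/-- `D` is a divisor which satisfies the hard Lefschetz theorem. -/
def IsHard (W : WeilCohomology.{u, 0} ops) (X : 𝒱.Obj) (D : X.Cycles) : Prop :=
  X.IsCyc 1 D ∧ HardLefschetz W X D

/-- The cohomology of `X` is not zero. -/
def IsNonzero (W : WeilCohomology.{u, 0} ops) (X : 𝒱.Obj) : Prop := (1 : W.H X) ≠ 0

/-- The product `X i₁ × (X i₂ × (⋯ × Z))` with the sum of the pull-backs of the divisors. -/
noncomputable def productOf {ι : Type} (X : ι → GVar W Γ) (D : ∀ i, (X i).X.Cycles)
    (Z : GVar W Γ) (E : Z.X.Cycles) : List ι → Polarized 𝒱
  | [] => ⟨Z.X, E⟩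
  | i :: L => (⟨(X i).X, D i⟩ : Polarized 𝒱).prod ops (productOf X D Z E L)

/-- The field `κ` has `c ^ f` elements, the coverings are admissible, `N` is a common multiple of
their degrees, and `IsSmall` holds. -/
structure IsSmallSystem {κ : Type} [Field κ] [Fintype κ] {ι : Type} (C : ι → Covering κ)
    (c f N lam : ℕ) : Prop where
  card : Fintype.card κ = c ^ f
  admissible : ∀ i, (C i).IsAdmissible
  pos : 0 < N
  dvd : ∀ i, (C i).N ∣ N
  small : IsSmall C c f N lam

/-- `G` is a class of varieties with a Galois action, closed under products, `σ ∈ Γ` acts like a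
Frobenius, the varieties `X i` in `G`, with the divisors `D i`, are models of the coverings, and the
variety `Z` in `G` satisfies `IsGoodBase`. -/
structure IsCoveringSystem {κ : Type} [Field κ] [Fintype κ] {ι : Type} (C : ι → Covering κ)
    (N lam : ℕ) (χ : Γ →* W.Kˣ) (σ : Γ) (τ : W.K →+* ℂ) (G : Set (GVar W Γ))
    (X : ι → GVar W Γ) (D : ∀ i, (X i).X.Cycles) (Z : GVar W Γ) : Prop where
  galois : GaloisClass χ G
  frobenius : IsNumber (χ σ) (Fintype.card κ)
  mem : ∀ i, X i ∈ G
  model : ∀ i, IsModel (C i) (X i) σ τ
  nonzero : ∀ i, IsNonzero W (X i).X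
  hard : ∀ i, IsHard W (X i).X (D i)
  base_mem : Z ∈ G
  base : IsGoodBase (Fintype.card κ) N lam (eigenvaluesOf Z.act σ τ)

/-- The conclusions for the product `V` of the `X i` with `i ∈ L` and of `Z`: the conjecture D for `V`
is equivalent to the conjecture D for `Z`; all cycles on `X i × V` split, for `i` not in `L`; and the
conjecture of Hodge type for `V` is equivalent to the conjecture of Hodge type for `Z`, if it holds for
the `X i`. -/
structure Conclusions {ι : Type} (X : ι → GVar W Γ) (D : ∀ i, (X i).X.Cycles) (Z : GVar W Γ)
    (E : Z.X.Cycles) (L : List ι) : Prop where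
  numerical : HomEqNum W (productOf X D Z E L).X ↔ HomEqNum W Z.X
  split : ∀ i, i ∉ L → Pool.Agent.TH132.A.CyclesSplit W (X i).X (productOf X D Z E L).X
  hodge : (∀ i, HodgeType W (X i).X (D i)) → IsHard W Z.X E →
    (HodgeType W (productOf X D Z E L).X (productOf X D Z E L).D ↔ HodgeType W Z.X E)

end geometry

/-- **Homological and numerical equivalence for products with cyclic coverings branched along
hyperplanes.** -/
theorem result (c : ℕ) [Fact c.Prime] (κ : Type) [Field κ] [Fintype κ] [CharP κ c] {ι : Type}
    (C : ι → Covering κ) (f N lam : ℕ) (hC : IsSmallSystem C c f N lam)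
    {k : Type u} [Field k] {𝒱 : VarClass k} {ops : CycleOps 𝒱} (W : WeilCohomology.{u, 0} ops)
    [IsAlgClosed W.K] {Γ : Type} [Group Γ] (χ : Γ →* W.Kˣ) (σ : Γ) (τ : W.K →+* ℂ)
    (G : Set (GVar W Γ)) (X : ι → GVar W Γ) (D : ∀ i, (X i).X.Cycles) (Z : GVar W Γ)
    (h : IsCoveringSystem C N lam χ σ τ G X D Z) (E : Z.X.Cycles) (L : List ι) (hL : L.Nodup) :
    Conclusions X D Z E L := by
  obtain ⟨hf, hC, hN, hdN, hsmall⟩ := hC
  obtain ⟨hG, hσ, hX, hmodel, h1, hD, hZ, hZ'⟩ := h
  have hf0 : 0 < f := by
    rcases Nat.eq_zero_or_pos f with h | h
    · rw [h, pow_zero] at hf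
      have := Fintype.one_lt_card (α := κ)
      omega
    · exact h
  choose g T hσT hgT hT hcov hpure using hmodel
  have hsmall' : ∀ I : Finset ι, I.Nonempty → Pool.Agent.N876.UV.SmallI c f N lam
      (fun i => (C i).N) (fun i => (C i).n) (fun i => (C i).s) (fun i => (C i).a) I := by
    intro I hI j hj
    obtain ⟨u, hu, hlt⟩ := hsmall I hI j hj
    refine ⟨u, hu, Pool.Agent.N876.UV.weight_conv' hf0 hN hdN I
      (fun i => ∑ k, ∑ t ∈ range f, (u * j i * (C i).a k * c ^ t) % (C i).N) ?_⟩
    refine lt_of_le_of_lt (le_of_eq ?_) hlt
    congr 1
    refine sum_congr rfl fun i _ => ?_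
    unfold Covering.weight
    push_cast
    rfl
  have hcov' : ∀ i, Pool.Agent.N876.TC.IsCov (C i).N (C i).l (C i).a (C i).z
      (((X i).act σ).toLinearMap.restrict (hσT i)) ((W.map (g i)).toLinearMap.restrict (hgT i)) :=
    fun i => ⟨(hcov i).commute, (hcov i).order, (hcov i).invariants,
      fun L _ _ _ t => (hcov i).lefschetz L t⟩
  have hres : ∀ SZ, Pool.Agent.N876.FL.OtherOK τ (Fintype.card κ) N lam SZ →
      Pool.Agent.N876.FL.NoResF (Fintype.card κ : W.K)
        (fun i => {α | Module.End.HasEigenvalue
          (((X i).act σ).toLinearMap.restrict (hσT i)) α}) SZ :=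
    fun SZ hSZ => Pool.Agent.N876.FL.nores_cov hN (fun i => (hC i).two_le) hdN κ hf
      (fun i => (hC i).root) (fun i => (C i).l) (fun i => (C i).a) (fun i => (hC i).coprime) τ
      hcov' hsmall' hpure hSZ
  have hsys : Pool.Agent.N876.FL.Sys χ G X Z σ
      (fun i => {α | Module.End.HasEigenvalue
          (((X i).act σ).toLinearMap.restrict (hσT i)) α}) :=
    { gal := hG
      mem := hX
      memZ := hZ
      cv := fun i => ⟨T i, hσT i, hT i, fun α hα => hα⟩
      res := by
        rw [hσ]
        refine hres _ ⟨?_, ?_⟩
        · intro β hβ
          exact hZ'.1 _ ⟨β, hβ, rfl⟩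
        · rcases hZ'.2 with h | h
          · exact Or.inl h
          · exact Or.inr fun β hβ => h _ ⟨β, hβ, rfl⟩
      res1 := by
        rw [hσ]
        exact hres _ (Pool.Agent.N876.FL.otherOK_one τ _ _ _)
      one := h1 }
  have hprod : ∀ L : List ι, productOf X D Z E L = Pool.Agent.N876.FL.tow X D ⟨Z.X, E⟩ L := by
    intro L
    induction L with
    | nil => rfl
    | cons i L ih => rw [productOf, Pool.Agent.N876.FL.tow, ih]
  refine ⟨?_, ?_, ?_⟩
  · rw [hprod L]
    exact hsys.homEqNum_tow D E hL
  · intro i hi
    rw [hprod L]
    exact (hsys.clSplit D E hi hL).cyclesSplit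
  · intro hHod hE
    rw [hprod L]
    exact hsys.hodge_tow (fun i => (hD i).1) (fun i => (hD i).2) hHod hE.1 hE.2 hL

end Pool.Agent.Results.MP_0c8446_ag.HyperplaneCoverings
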