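import Pool.Agent.N876.CG.GalR
import Pool.Agent.W484.CK.Main

/-!
# The Tate conjecture for singular varieties: products with cyclic coverings branched along hyperplanes

Let `k` be a finitely generated field (of any characteristic) with absolute Galois group `Γ`, and `𝒱` a
class of smooth projective varieties over `k`, closed under products, with Chow groups `A` with rational
coefficients and the cohomology `H(X) = H^*(X̄, ℚ_ℓ) ⊗ K`, where `K` is an algebraic closure of `ℚ_ℓ`
(framework of helper492: `TheoryData`, `IsChow`, `IsWeil`), on which `Γ` acts (`GaloisData`,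
`IsGaloisAction`). Let
`y` be a closed point of a model of `k`, with residue field `κ` with `q = c ^ f` elements, over which the
varieties considered have good reduction, and `σ` a geometric Frobenius element at `y`. Let `X_i` be
varieties in `𝒱`, of any dimensions `n_i`, whose reductions are models of cyclic coverings

  `w ^ N_i = ∏ l_{i,t} (x) ^ a_{i,t}`

of projective spaces, branched along hyperplanes `l_{i,t} = 0` over `κ`, with exponents prime to `N_i`,
where `N_i` divides `q - 1` (`IsModel`, see the definitions: the cohomology is generated by the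
classes of cycles over `k` and a part `T`, pure of weight `n_i`, without invariants under the covering
group, for which the trace formula holds). Let `N` be a common multiple of the `N_i`, and `λ` an
integer such that `IsSmall N λ` holds: for every nonempty finite set `I` of indices and all `j_i` not
divisible by `N_i` (`i ∈ I`) there is a `u` prime to `N` with
`∑_{i ∈ I} weight X_i (u j_i) + λ / 2 < ∑_{i ∈ I} (n_i / 2 + 1)`; here `weight X j` is the mean over the
orbit `j, c j, …, c ^ (f - 1) j` of the sum of the fractional parts of `j a_t / N_i`.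

Let `U` be **any** variety over `k` (open, singular, reducible), `e = dim U`, and `Z` a variety in `𝒱` (for
example a point). Let `M = ⨁ M^j` with `M^j = H_{2e-j}(Ū, ℚ_ℓ(e)) ⊗ K`, the étale homology; for `U` smooth of
pure dimension this is `H^j(Ū, ℚ_ℓ) ⊗ K`. For `X` in `𝒱` let `R(X) = H(X) ⊗ M` and
`R^n(X) = ⨁ H^i(X) ⊗ M^(2n-i)` (`degreePart`);
by the Künneth formula this is `H_{2j}(X̄ × Ū, ℚ_ℓ(j)) ⊗ K`, `j = dim X + e - n`, where the action of `γ` is
multiplied by `χ(γ) ^ n` and `χ` is the inverse of the cyclotomic character. So the classes in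
`H_{2j}(X̄ × Ū, ℚ_ℓ(j)) ⊗ K` which are invariant under an open subgroup `Γ'` are the elements of `R^n(X)`
with `γ v = χ(γ) ^ n v` for `γ ∈ Γ'` (`IsTateClass`). The span `cyc X n` of the classes of the cycles of
dimension `j` on `X × U` over the extension of `k` with the group `Γ'` is stable under the
correspondences between the varieties in `𝒱` (`IsCycleTheory`); nothing else is used. So
`TateFor Γ' cyc X n` is the assertion of Q1 for `X × U`, over the field with the group `Γ'`, for the
cycles of codimension `n`.
We assume that the products `b` of the eigenvalues of `σ` on `H(Z)` and on `M` are of the form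
`|b| ^ 2 = q ^ j` (theorem of Deligne) and that
* either `λ = 0` and the cyclotomic polynomial of order `N` is irreducible over the field generated by
  the numbers `b` (for given `Z` and `U` this is true for all `N` prime to the discriminant of this field),
* or `Z × U` is of level `≤ λ` at `y`: the numbers `q ^ λ b / b̄` are algebraic integers. This is true if
  `dim Z + dim U ≤ λ`.

**Theorem.** Let `V` be the product of `Z` and of finitely many of the `X_i` (pairwise different), and
`d = dim V - dim Z`, and let `k'` be a finite extension of `k`.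
* **Q1 is true for `V × U` over `k'` in codimension `n` if and only if it is true for `Z × U` over `k'` in
  the codimensions `l` with `n - d ≤ l ≤ n`.** So the answer to Q1 for `V × U` (all `n`) is the same as for
  `Z × U`; if `Z` is a point, the same as for `U`.
* If `V = X_i × V'`, then there are finitely many algebraic cycles `D j` on `X_i`, which do not depend on
  `k'`, such that every Tate class of `V × U` over `k'` is in a unique way the sum of the products of
  the `D j` with Tate classes of `V' × U`.

No conjecture is assumed, and nothing on `U` besides the condition on the numbers `b` at one place. In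
particular Q1 is true for `V × U`, over all finite extensions of `k`, if `Z` is a point and it is known
for `U` over these fields, for example if `U` is an open or singular curve or a singular surface
whose resolutions satisfy the Tate conjecture for divisors.

Examples. (a) Let `X_i` be curves `y ^ N_i = ∏ (x - x_{i,t})` with `N_i` factors, of genus
`(N_i - 1) (N_i - 2) / 2`, for different prime numbers `N_i` dividing `c - 1`. Then `weight X_i j` is the
residue of `j` modulo `N_i`, and `IsSmall N 0` holds for the product `N` of the `N_i` (take `u` with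
`u j_i = 1` modulo `N_i`). (b) Let `X` be the variety `w ^ N = l_1 ⋯ l_N` of dimension `n = N - 2`, with
`N` hyperplanes in general position, for a prime number `N` dividing `c - 1` (the resolutions are
Calabi-Yau varieties). The weight for `u j = 1` is `1`, so `IsSmall N λ` holds for all `λ < n`: the
theorem applies to **all varieties `U` over `k` of dimension smaller than `dim X`** with good reduction
at `y` (every variety `U` over a number field has such places `y` for infinitely many `c ≡ 1` modulo `N`).

The proof: by the theorem of Stickelberger on Gauss sums and the product formula no product of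
eigenvalues of `σ` on the parts `T` of several `X_i` and of a number `b` is a power of `q`, up to roots
of unity. So the intersection pairing on the algebraic classes of `X_i` is not degenerate; let
`D j`, `E j` be dual systems of cycles on `X_i`. Some power of `σ` is in `Γ'`, so every Tate class of
`X_i × V' × U` is contained in the sum of the `D j × H(V') ⊗ M`, and its components are obtained by
the correspondences given by the `E j`, so they are Tate classes, and they are algebraic if the
given class is.

helper876; built on the library of the starting files (estimates of sums over hyperplane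
arrangements by Gauss sums: helper528 and helpers 800, 883, 135, 563, 271, 540, 400, 999, 782, 605,
346; traces on eigenspaces: helper117; correspondences and the Kunneth formula: helpers 484, 492,
550).
-/

set_option autoImplicit false

open Finset Polynomial CategoryTheory AlgebraicGeometry
open scoped TensorProduct

namespace Pool.Agent.Results.MP_40dc3c_ag.HyperplaneCoverings

open Pool.Agent.H914 Pool.Agent.H914.VarClass Pool.Agent.H914.VarClass.Obj Pool.Agent.W492.BB
  Pool.Agent.W484.CK

/-- A cyclic covering `w ^ N = ∏ l_k (x) ^ a_k` of the projective space of dimension `n`, and a root of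
unity `z`. -/
structure Covering (κ : Type) [Field κ] : Type where
  N : ℕ
  n : ℕ
  s : ℕ
  l : Fin s → Fin (n + 1) → κ
  a : Fin s → ℕ
  z : κ

/-- `z` has order `N ≥ 2`, the exponents are prime to `N` and their sum is divisible by `N`. -/
structure Covering.IsAdmissible {κ : Type} [Field κ] (X : Covering κ) : Prop where
  two_le : 2 ≤ X.N
  root : IsPrimitiveRoot X.z X.N
  coprime : ∀ k, (X.a k).Coprime X.N
  dvd : X.N ∣ ∑ k, X.a k

/-- The value of the form `∏ l_k ^ a_k` at a vector with coordinates in `L`. -/
def Covering.value {κ : Type} [Field κ] (X : Covering κ) (L : Type) [Field L] [Algebra κ L]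
    (x : Fin (X.n + 1) → L) : L :=
  ∏ k, (∑ t, algebraMap κ L (X.l k t) * x t) ^ X.a k

/-- The number of vectors over `L` where the form is not zero. -/
noncomputable def Covering.openCount {κ : Type} [Field κ] (X : Covering κ) (L : Type) [Field L]
    [Algebra κ L] : ℕ :=
  Set.ncard {x : Fin (X.n + 1) → L | X.value L x ≠ 0}

/-- The number of vectors over `L` where the form is not zero and its power with the exponent
`(|L| - 1) / N` is `z ^ i`. -/
noncomputable def Covering.fixCount {κ : Type} [Field κ] (X : Covering κ) (L : Type) [Field L]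
    [Fintype L] [Algebra κ L] (i : ℕ) : ℕ :=
  Set.ncard {x : Fin (X.n + 1) → L | X.value L x ≠ 0 ∧
    (X.value L x) ^ ((Fintype.card L - 1) / X.N) = algebraMap κ L X.z ^ i}

/-- `T` is the part without invariants of the cohomology of degree `n` of a smooth projective model
of the covering, with the Frobenius `Φ` and the generator `g` of the covering group. The trace
of `Φ ^ [L : κ] g ^ i` is up to the sign the difference of the number of fixed points over the open
set `∏ l_k ≠ 0` of projective space (`N` points over each point where the form has the power residue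
symbol `z ^ i`) and of the number of the points of this open set. -/
structure IsCyclicCovering {κ : Type} [Field κ] (X : Covering κ) {K T : Type} [Field K]
    [AddCommGroup T] [Module K T] (Φ g : Module.End K T) : Prop where
  commute : Commute Φ g
  order : g ^ X.N = 1
  invariants : ∀ t, g t = t → t = 0
  lefschetz : ∀ (L : Type) [Field L] [Fintype L] [Algebra κ L] (i : ℕ),
    ((Fintype.card L : K) - 1) *
        ((-1) ^ X.n * LinearMap.trace K T (Φ ^ Module.finrank κ L * g ^ i)) =
      (X.N : K) * (X.fixCount L i : K) - (X.openCount L : K)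

/-- The mean over `j, c j, …, c ^ (f - 1) j` of the sum of the fractional parts of `j a_k / N`. -/
def Covering.weight {κ : Type} [Field κ] (X : Covering κ) (c f j : ℕ) : ℚ :=
  (∑ k, ∑ t ∈ range f, (((j * X.a k * c ^ t) % X.N : ℕ) : ℚ)) / (f * X.N)

/-- The condition on the exponents. -/
def IsSmall {κ : Type} [Field κ] {ι : Type} (X : ι → Covering κ) (c f N lam : ℕ) : Prop :=
  ∀ I : Finset ι, I.Nonempty → ∀ j : ι → ℕ, (∀ i ∈ I, ¬ (X i).N ∣ j i) →
    ∃ u : ℕ, u.Coprime N ∧
      ∑ i ∈ I, (X i).weight c f (u * j i) + (lam : ℚ) / 2 < ∑ i ∈ I, (((X i).n : ℚ) / 2 + 1)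

/-- The space `H` is generated by the subspace `P` (the classes of algebraic cycles) and a subspace `T`
which is stable under `Φ` (the Frobenius) and `g` (a generator of the covering group), `T` is the part
without invariants (`IsCyclicCovering`), and pure of weight `n`. The complex numbers enter by an
embedding `τ` of the coefficient field. -/
def IsCoveringCohomology {κ : Type} [Field κ] [Fintype κ] (C : Covering κ) {K H : Type} [Field K]
    [AddCommGroup H] [Module K H] (P : Submodule K H) (Φ g : Module.End K H) (τ : K →+* ℂ) : Prop :=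
  ∃ (T : Submodule K H) (hΦ : ∀ t ∈ T, Φ t ∈ T) (hg : ∀ t ∈ T, g t ∈ T), P ⊔ T = ⊤ ∧
    IsCyclicCovering C (Φ.restrict hΦ) (g.restrict hg) ∧
    ∀ α, Module.End.HasEigenvalue (Φ.restrict hΦ) α → ‖τ α‖ ^ 2 = (Fintype.card κ : ℝ) ^ C.n

/-- The images of the eigenvalues of `Φ` under the embedding `τ` of the coefficient field. -/
def eigenvalues {K H : Type} [Field K] [AddCommGroup H] [Module K H] (Φ : Module.End K H)
    (τ : K →+* ℂ) : Set ℂ :=
  {b | ∃ β : K, Φ.HasEigenvalue β ∧ τ β = b}

/-- The conditions on a set `B` of complex numbers: they are algebraic with `|b| ^ 2 = q ^ j`, and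
either `lam = 0` and the cyclotomic polynomial of order `N` is irreducible over the field generated
by `B`, or `B` is of level at most `lam`. -/
def IsGoodBase (q N lam : ℕ) (B : Set ℂ) : Prop :=
  (∀ b ∈ B, IsAlgebraic ℚ b ∧ ∃ j : ℕ, ‖b‖ ^ 2 = (q : ℝ) ^ j) ∧
    ((lam = 0 ∧ Irreducible (cyclotomic N (IntermediateField.adjoin ℚ B))) ∨
      ∀ b ∈ B, IsIntegral ℤ ((q : ℂ) ^ lam * b / starRingEnd ℂ b))

/-- An endomorphism of an algebra as a linear map. -/
def ofHom {K H : Type} [Field K] [Ring H] [Algebra K H] (g : H →ₐ[K] H) : Module.End K H :=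
  g.toLinearMap

/-- The tensor product of `A` and `M`. -/
def Tens (K A M : Type) [Field K] [AddCommGroup A] [Module K A] [AddCommGroup M] [Module K M] :
    Type := A ⊗[K] M

noncomputable instance (K A M : Type) [Field K] [AddCommGroup A] [Module K A] [AddCommGroup M]
    [Module K M] : AddCommGroup (Tens K A M) :=
  @TensorProduct.addCommGroup K _ A M _ _ _ _

noncomputable instance (K A M : Type) [Field K] [AddCommGroup A] [Module K A] [AddCommGroup M]
    [Module K M] : Module K (Tens K A M) :=
  @TensorProduct.instModule K _ A M _ _ _ _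

/-- The element `a ⊗ x`. -/
noncomputable def Tens.tmul {K A M : Type} [Field K] [AddCommGroup A] [Module K A] [AddCommGroup M]
    [Module K M] (a : A) (x : M) : Tens K A M := a ⊗ₜ[K] x

/-- The map `f ⊗ g`. -/
noncomputable def Tens.map {K A M : Type} [Field K] [AddCommGroup A] [Module K A] [AddCommGroup M]
    [Module K M] (f : Module.End K A) (g : Module.End K M) : Module.End K (Tens K A M) :=
  TensorProduct.map f g

/-- The images under `τ` of the products of the eigenvalues of `Φ` and of `μ`. -/
def productsOf {K H M : Type} [Field K] [AddCommGroup H] [Module K H] [AddCommGroup M] [Module K M]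
    (Φ : Module.End K H) (μ : Module.End K M) (τ : K →+* ℂ) : Set ℂ :=
  {b | ∃ β ρ : K, Φ.HasEigenvalue β ∧ μ.HasEigenvalue ρ ∧ τ (β * ρ) = b}

/-- The field `κ` has `c ^ f` elements, the coverings are admissible, `N` is a common multiple of
their degrees, and `IsSmall` holds. -/
structure IsSmallSystem {κ : Type} [Field κ] [Fintype κ] {ι : Type} (C : ι → Covering κ)
    (c f N lam : ℕ) : Prop where
  card : Fintype.card κ = c ^ f
  admissible : ∀ i, (C i).IsAdmissible
  pos : 0 < N
  dvd : ∀ i, (C i).N ∣ N
  small : IsSmall C c f N lam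

section geometry

variable {κ : Type} [Field κ] {k : Type} [Field k] {𝒱 : VarClass k}
  {A : TheoryData.{0, 0, 0} 𝒱 ℚ} {K : Type} [Field K]

/-- The span of the classes of cycles on `X`. -/
def cycleSpan (H : WeilTheoryData.{0, 0, 0} A K) (X : 𝒱.Obj) : Submodule K (H.A X) :=
  Submodule.span K {a | ∃ (i : ℕ) (z : A.A X), A.Deg i z ∧ a = H.cl z}

/-- There is a divisor on `X` whose power with the exponent `dim X` is not zero in the cohomology. -/
def IsPolarized (H : WeilTheoryData.{0, 0, 0} A K) (X : 𝒱.Obj) : Prop :=
  ∃ D : A.A X, A.Deg 1 D ∧ H.cl D ^ X.dim ≠ 0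

/-- The product `X i₁ × (X i₂ × (⋯ × Z))`. -/
noncomputable def productOf {ι : Type} (X : ι → 𝒱.Obj) (Z : 𝒱.Obj) : List ι → 𝒱.Obj
  | [] => Z
  | i :: L => (X i).prod (productOf X Z L)

/-- The sum of the dimensions of the `X i`. -/
def dimension {ι : Type} (X : ι → 𝒱.Obj) : List ι → ℕ
  | [] => 0
  | i :: L => (X i).dim + dimension X L

/-- A group `Γ` with a character `χ`, actions `ρ` of `Γ` on the cohomology, and a vector space `M` with
subspaces `W j` and an action `μ` of `Γ`. -/
structure GaloisData (H : WeilTheoryData.{0, 0, 0} A K) where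
  Γ : Type
  [group : Group Γ]
  χ : Γ →* Kˣ
  ρ : ∀ X : 𝒱.Obj, Γ →* (H.A X →ₐ[K] H.A X)
  M : Type
  [addCommGroup : AddCommGroup M]
  [module : Module K M]
  W : ℤ → Submodule K M
  μ : Γ →* Module.End K M

attribute [instance] GaloisData.group GaloisData.addCommGroup GaloisData.module

namespace GaloisData

variable {H : WeilTheoryData.{0, 0, 0} A K} (G : GaloisData H)

/-- The value of the character in `K`. -/
def chi (γ : G.Γ) : K := (G.χ γ : Kˣ)

/-- The operator of `γ` on the cohomology of `X`. -/
def op (γ : G.Γ) (X : 𝒱.Obj) : Module.End K (H.A X) := ofHom (G.ρ X γ)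

/-- The operator of `γ` on the cohomology of `X`, as a map. -/
def on (γ : G.Γ) {X : 𝒱.Obj} (a : H.A X) : H.A X := G.op γ X a

/-- The operator of `γ` on `M`. -/
def opM (γ : G.Γ) : Module.End K G.M := G.μ γ

/-- The operators on the cohomology are like the action of a Galois group on the étale
cohomology without Tate twists, where `χ` is the inverse of the cyclotomic character. -/
structure IsGaloisAction : Prop where
  pull : ∀ (γ : G.Γ) {X Y : 𝒱.Obj} (f : X ⟶ Y) (b : H.A Y),
    G.on γ (H.up f b) = H.up f (G.on γ b)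
  cycle : ∀ (γ : G.Γ) (X : 𝒱.Obj) (i : ℕ) (z : A.A X), A.Deg i z →
    G.on γ (H.cl z) = G.chi γ ^ i • H.cl z
  trace : ∀ (γ : G.Γ) (X : 𝒱.Obj) (a : H.A X),
    H.tr X (G.on γ a) = G.chi γ ^ X.dim * H.tr X a

/-- `X`, with the Frobenius `σ` on its cohomology, is a model of the covering `C`, with a generator
`g` of the covering group. -/
def IsModel [Fintype κ] (C : Covering κ) (σ : G.Γ) (X : 𝒱.Obj) (τ : K →+* ℂ) : Prop :=
  ∃ g : X ⟶ X, IsCoveringCohomology C (cycleSpan H X) (G.op σ X) (ofHom (H.pull g)) τ

/-- The products of the eigenvalues of `σ` on `H(Z)` and on `M`. -/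
def products (σ : G.Γ) (Z : 𝒱.Obj) (τ : K →+* ℂ) : Set ℂ := productsOf (G.op σ Z) (G.opM σ) τ

/-- The space `R(X) = H(X) ⊗ M`. -/
def R (X : 𝒱.Obj) : Type := Tens K (H.A X) G.M

noncomputable instance (X : 𝒱.Obj) : AddCommGroup (G.R X) :=
  instAddCommGroupTens K (H.A X) G.M

noncomputable instance (X : 𝒱.Obj) : Module K (G.R X) :=
  instModuleTens K (H.A X) G.M

/-- The element `a ⊗ x`. -/
noncomputable def tmul {X : 𝒱.Obj} (a : H.A X) (x : G.M) : G.R X := Tens.tmul a x

/-- The action of `γ` on `R(X)`. -/
noncomputable def act (γ : G.Γ) (X : 𝒱.Obj) : Module.End K (G.R X) :=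
  Tens.map (G.op γ X) (G.opM γ)

/-- `F` is the map `a ⊗ x ↦ c_* a ⊗ x` from `R(X)` to `R(Y)` given by a correspondence `c` from `X`
to `Y`. -/
def IsCorr {X Y : 𝒱.Obj} (c : A.A (X.prod Y)) (F : G.R X →ₗ[K] G.R Y) : Prop :=
  ∀ (a : H.A X) (x : G.M), F (G.tmul a x) = G.tmul (H.act (H.cl c) a) x

/-- `F` is the external product `a ⊗ x ↦ (D × a) ⊗ x` with the class of a cycle `D` on `X`, from
`R(V)` to `R(X × V)`. -/
def IsTimes {X V : 𝒱.Obj} (D : A.A X) (F : G.R V →ₗ[K] G.R (X.prod V)) : Prop :=
  ∀ (a : H.A V) (x : G.M),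
    F (G.tmul a x) = G.tmul (H.mul (H.up (fst X V) (H.cl D)) (H.up (snd X V) a)) x

/-- The part of degree `2 n` of `R(X)`, the sum of the `H^i(X) ⊗ M^(2n-i)`, where `W j = M^j`. -/
noncomputable def degreePart (X : 𝒱.Obj) (n : ℤ) : Submodule K (G.R X) :=
  Submodule.span K {v | ∃ (i : ℤ) (a : H.A X) (x : G.M), H.Deg i a ∧ x ∈ G.W (2 * n - i) ∧
    v = G.tmul a x}

/-- `v` is a Tate class of codimension `n` on `X × U` over the extension with the group `Γ'`. -/
def IsTateClass (Γ' : Subgroup G.Γ) (X : 𝒱.Obj) (n : ℤ) (v : G.R X) : Prop :=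
  v ∈ G.degreePart X n ∧ ∀ γ ∈ Γ', G.act γ X v = G.chi γ ^ n • v

/-- `cyc X n` consists of Tate classes, and correspondences between varieties in `𝒱` shift the
degrees as usual. -/
structure IsCycleTheory (Γ' : Subgroup G.Γ) (cyc : ∀ X : 𝒱.Obj, ℤ → Submodule K (G.R X)) :
    Prop where
  tate : ∀ (X : 𝒱.Obj) (n : ℤ), ∀ v ∈ cyc X n, G.IsTateClass Γ' X n v
  stable : ∀ {X Y : 𝒱.Obj} {i j : ℤ} {c : A.A (X.prod Y)} {F : G.R X →ₗ[K] G.R Y},
    A.Deg (X.dim + j) c → G.IsCorr c F → ∀ v ∈ cyc X i, F v ∈ cyc Y (i + j)

/-- The assertion of Q1 for `X × U`, codimension `n` and the extension with the group `Γ'`: all Tate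
classes are in `cyc X n`. -/
def TateFor (Γ' : Subgroup G.Γ) (cyc : ∀ X : 𝒱.Obj, ℤ → Submodule K (G.R X)) (X : 𝒱.Obj)
    (n : ℤ) : Prop :=
  ∀ v : G.R X, G.IsTateClass Γ' X n v → v ∈ cyc X n

/-- For all subgroups `Γ'` of finite index, every Tate class of codimension `n` on `X × V × U` is in a
unique way the sum of the products of the `D j` with Tate classes `t j` of codimension `n - deg j`
on `V × U`. -/
def Decomposes (X V : 𝒱.Obj) : Prop :=
  ∃ (J : Type) (_ : Fintype J) (deg : J → ℕ) (D : J → A.A X) (F : J → G.R V →ₗ[K] G.R (X.prod V)),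
    (∀ j, A.Deg (deg j) (D j)) ∧ (∀ j, G.IsTimes (D j) (F j)) ∧
    ∀ (Γ' : Subgroup G.Γ) [Γ'.FiniteIndex] (n : ℤ) (v : G.R (X.prod V)),
      G.IsTateClass Γ' (X.prod V) n v → ∃! t : J → G.R V,
        (∀ j, G.IsTateClass Γ' V (n - deg j) (t j)) ∧ v = ∑ j, F j (t j)

end GaloisData

/-- `σ` is a Frobenius element with `χ σ = |κ|`, the varieties `X i` are models of the coverings, and `Z`
and the operator of `σ` on `M` satisfy `IsGoodBase`. -/
structure IsCoveringSystem [Fintype κ] {ι : Type} (C : ι → Covering κ) (N lam : ℕ)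
    {H : WeilTheoryData.{0, 0, 0} A K} (τ : K →+* ℂ) (G : GaloisData H) (σ : G.Γ) (X : ι → 𝒱.Obj)
    (Z : 𝒱.Obj) : Prop where
  standard : IsStandard H
  galois : G.IsGaloisAction
  frobenius : G.chi σ = Fintype.card κ
  model : ∀ i, G.IsModel (C i) σ (X i) τ
  polarized : ∀ i, IsPolarized H (X i)
  base : IsGoodBase (Fintype.card κ) N lam (G.products σ Z τ)

/-- The conclusions for the product `V` of the `X i` with `i ∈ L` and of `Z`: Q1 for all finite
extensions, and the Tate classes. -/
structure Conclusions {ι : Type} {H : WeilTheoryData.{0, 0, 0} A K} (G : GaloisData H)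
    (X : ι → 𝒱.Obj) (Z : 𝒱.Obj) (L : List ι) : Prop where
  tate : ∀ (Γ' : Subgroup G.Γ) [Γ'.FiniteIndex] (cyc : ∀ X : 𝒱.Obj, ℤ → Submodule K (G.R X)),
    G.IsCycleTheory Γ' cyc → ∀ n : ℤ, (G.TateFor Γ' cyc (productOf X Z L) n ↔
      ∀ l : ℤ, n - dimension X L ≤ l → l ≤ n → G.TateFor Γ' cyc Z l)
  decomposes : ∀ i, i ∉ L → G.Decomposes (X i) (productOf X Z L)

end geometry

/-- **The Tate conjecture for products of cyclic coverings branched along hyperplanes with singular
varieties.** -/
theorem result (c : ℕ) [Fact c.Prime] (κ : Type) [Field κ] [Fintype κ] [CharP κ c] {ι : Type}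
    (C : ι → Covering κ) (f N lam : ℕ) (hC : IsSmallSystem C c f N lam) {k : Type} [Field k]
    {𝒱 : VarClass k} (A : TheoryData.{0, 0, 0} 𝒱 ℚ) [IsChow A] {K : Type} [Field K]
    [IsAlgClosed K] [CharZero K] (H : WeilTheoryData.{0, 0, 0} A K) [IsWeil H] (τ : K →+* ℂ)
    (G : GaloisData H) [FiniteDimensional K G.M] (σ : G.Γ) (X : ι → 𝒱.Obj) (Z : 𝒱.Obj)
    (h : IsCoveringSystem C N lam τ G σ X Z) (L : List ι) (hL : L.Nodup) :
    Conclusions G X Z L := by
  obtain ⟨hf, hC, hN, hdN, hsmall⟩ := hC
  obtain ⟨hstd, hgal, hσ', hmodel, hpol, hbase⟩ := h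
  have hσ : ((G.χ σ : Kˣ) : K) = (Fintype.card κ : K) := hσ'
  have hfin := hstd.finite
  have hf0 : 0 < f := by
    rcases Nat.eq_zero_or_pos f with h | h
    · rw [h, pow_zero] at hf
      have := Fintype.one_lt_card (α := κ)
      omega
    · exact h
  choose g T' hσT hgT hT' hcov hpure using hmodel
  simp only [GaloisData.op] at hσT hcov hpure
  have hsmall' : ∀ I : Finset ι, I.Nonempty → Pool.Agent.N876.UV.SmallI c f N lam
      (fun i => (C i).N) (fun i => (C i).n) (fun i => (C i).s) (fun i => (C i).a) I := by
    intro I hI j hj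
    obtain ⟨u, hu, hlt⟩ := hsmall I hI j hj
    refine ⟨u, hu, Pool.Agent.N876.UV.weight_conv' hf0 hN hdN I
      (fun i => ∑ k, ∑ t ∈ range f, (u * j i * (C i).a k * c ^ t) % (C i).N) ?_⟩
    refine lt_of_le_of_lt (le_of_eq ?_) hlt
    congr 1
    refine sum_congr rfl fun i _ => ?_
    unfold Covering.weight
    push_cast
    rfl
  have hcov' : ∀ i, Pool.Agent.N876.TC.IsCov (C i).N (C i).l (C i).a (C i).z
      ((ofHom (G.ρ (X i) σ)).restrict (hσT i)) ((ofHom (H.pull (g i))).restrict (hgT i)) :=
    fun i => ⟨(hcov i).commute, (hcov i).order, (hcov i).invariants,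
      fun L _ _ _ t => (hcov i).lefschetz L t⟩
  have hres : ∀ SZ, Pool.Agent.N876.FL.OtherOK τ (Fintype.card κ) N lam SZ →
      Pool.Agent.N876.FL.NoResF (Fintype.card κ : K)
        (fun i => {α | Module.End.HasEigenvalue ((ofHom (G.ρ (X i) σ)).restrict (hσT i)) α}) SZ :=
    fun SZ hSZ => Pool.Agent.N876.FL.nores_cov hN (fun i => (hC i).two_le) hdN κ hf
      (fun i => (hC i).root) (fun i => (C i).l) (fun i => (C i).a) (fun i => (hC i).coprime) τ
      hcov' hsmall' hpure hSZ
  have htw : ∀ L : List ι, productOf X Z L = Pool.Agent.N876.CG.tw X Z L := by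
    intro L
    induction L with
    | nil => rfl
    | cons i L ih => rw [productOf, Pool.Agent.N876.CG.tw, ih]
  have hdim : ∀ L : List ι, dimension X L = Pool.Agent.N876.CG.dims X L := by
    intro L
    induction L with
    | nil => rfl
    | cons i L ih => rw [dimension, Pool.Agent.N876.CG.dims, ih]
  have heqv : ∀ γ, Pool.Agent.N876.CG.Eqv H ((G.χ γ : Kˣ) : K) (fun X => G.ρ X γ) :=
    Pool.Agent.N876.CG.eqv_of hgal.pull hgal.cycle hgal.trace
  have hsys : Pool.Agent.N876.CG.Gs H (Fintype.card κ) (fun X => G.ρ X σ) X Z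
      (fun i => {α | Module.End.HasEigenvalue ((ofHom (G.ρ (X i) σ)).restrict (hσT i)) α})
      {r | Module.End.HasEigenvalue (G.μ σ) r} :=
    { std := isStandard_bridge hstd
      one_lt := Fintype.one_lt_card
      eqv := by
        have h1 := heqv σ
        rw [hσ] at h1
        exact h1
      cg := fun i => ⟨T' i, hσT i, hT' i, fun α hα => hα⟩
      res := by
        have himg : (τ '' {γ | ∃ β r, Module.End.HasEigenvalue (G.ρ Z σ).toLinearMap β ∧
            r ∈ {r | Module.End.HasEigenvalue (G.μ σ) r} ∧ γ = β * r}) =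
            G.products σ Z τ := by
          ext b
          constructor
          · rintro ⟨_, ⟨β, r, hβ, hr, rfl⟩, rfl⟩
            exact ⟨β, r, hβ, hr, rfl⟩
          · rintro ⟨β, r, hβ, hr, rfl⟩
            exact ⟨_, ⟨β, r, hβ, hr, rfl⟩, rfl⟩
        refine hres _ ⟨?_, ?_⟩
        · rintro _ ⟨β, r, hβ, hr, rfl⟩
          exact hbase.1 _ ⟨β, r, hβ, hr, rfl⟩
        · rcases hbase.2 with h | h
          · left
            rw [himg]
            exact h
          · right
            rintro _ ⟨β, r, hβ, hr, rfl⟩
            exact h _ ⟨β, r, hβ, hr, rfl⟩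
      res1 := hres _ (Pool.Agent.N876.FL.otherOK_one τ _ _ _) }
  -- the theory of Tate classes
  have hact : ∀ {X Y : 𝒱.Obj} (c : A.A (X.prod Y)),
      G.IsCorr c (Pool.Agent.N876.CG.actM H G.M c) := fun c a x => rfl
  have hTate : ∀ (Γ' : Subgroup G.Γ) (X : 𝒱.Obj) (n : ℤ) (v : G.R X),
      G.IsTateClass Γ' X n v ↔
        (v : H.A X ⊗[K] G.M) ∈ Pool.Agent.N876.CG.tateS G.χ G.ρ G.μ G.W 0 Γ' X n := by
    intro Γ' X n v
    refine Iff.trans ?_ (Pool.Agent.N876.CG.mem_tateS (H := H) (χ := G.χ) (ρ := G.ρ) (μ := G.μ)
      (W := G.W) (t := 0) (Γ' := Γ') (n := n) (v := v)).symm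
    have h1 : G.degreePart X n = Pool.Agent.N876.CG.part H G.W 0 X n := by
      unfold GaloisData.degreePart Pool.Agent.N876.CG.part
      simp only [add_zero]
      rfl
    unfold GaloisData.IsTateClass
    rw [h1]
    rfl
  refine ⟨fun Γ' _ cyc hcyc n => ?_, fun i hi => ?_⟩
  · have hiff : ∀ (V : 𝒱.Obj) (n : ℤ), G.TateFor Γ' cyc V n ↔
        Pool.Agent.N876.CG.tateS G.χ G.ρ G.μ G.W 0 Γ' V n ≤ cyc V n := by
      intro V n
      unfold GaloisData.TateFor
      refine forall_congr' fun v => ?_
      rw [hTate]
      rfl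
    rw [htw L, hdim L, hiff]
    simp only [hiff]
    exact Pool.Agent.N876.CG.gal_surj heqv hσ hsys hpol G.W 0 Γ' cyc
      (fun hc hv => hcyc.stable hc (hact _) _ hv)
      (fun X n v hv => (hTate Γ' X n v).1 (hcyc.tate X n v hv)) hL n
  · rw [htw L]
    obtain ⟨J, hJ, deg, D, E, h1, h2, h3⟩ :=
      Pool.Agent.N876.CG.gal_kun (M := G.M) (μ := G.μ) heqv hσ hsys hi hL
    refine ⟨J, hJ, deg, D, fun j => Pool.Agent.N876.CG.actM H G.M
      (Pool.Agent.W484.CH.extBy A (Pool.Agent.N876.CG.tw X Z L) (D j)), h1.left, fun j a x => ?_,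
      fun Γ' _ n v hv => ?_⟩
    · refine (Pool.Agent.N876.CG.actM_tmul _ a x).trans ?_
      rw [Pool.Agent.W484.CH.cl_extBy, Pool.Agent.W484.CH.act_extBy]
      rfl
    · obtain ⟨t, ⟨ht1, ht2⟩, ht3⟩ := h3 G.W 0 Γ' n v ((hTate Γ' _ n v).1 hv)
      exact ⟨t, ⟨fun j => (hTate Γ' _ _ _).2 (ht1 j), ht2⟩,
        fun t' h4 => ht3 t' ⟨fun j => (hTate Γ' _ _ _).1 (h4.1 j), h4.2⟩⟩

end Pool.Agent.Results.MP_40dc3c_ag.HyperplaneCoverings
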